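import Mathlib
import Pool.Agent.Results.MP_76188c_nt.TowersAllTwists
import Pool.Agent.K3h45.ST.DimB
import Pool.Agent.K3h57.DM.Loc2
import Pool.Agent.K3h58.DM.Core2
import Pool.Agent.K3h59.DM.Normg
import Pool.Agent.K3h87.DM.LATT

/-!
# Semistable classes in all weights over infinite multiquadratic towers: the number of Beilinson

The curves, the frames, the good numbers `D`, the fine triples, the condition `NonSquare` and the
fields `L` are those of `TowersAllTwists`: `K = ℚ(√-7)`,

`E_{t,d} : y² = x (x + d a²) (x + d b²)`, `t = (a, b, c)`, `a² = b² + c²`, `a` and `d` prime to `2`,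
`ω² ∣ b`, `(1 - ω)² ∣ c`,

and `L = K(√δ_1, ..., √δ_m)` is such that all the `2 ^ m` numbers `D ∏_{j ∈ T} δ_j` are, up to squares,
good numbers which are not squares modulo the bad primes. By `TowersAllTwists`, for every finite set
of fine triples there are infinitely many `D` and for each of them an infinite tower of such fields
`L = K(√l_0, ..., √l_{m-1})`; this is part (2) here.

Let `E_1, ..., E_n` be curves of the family with `d_1 ... d_n = D` modulo squares, and
`V = V_2(E_1) ⊗ ... ⊗ V_2(E_n) (-i)`. In `TowersAllTwists` it is proved that the semistable classes of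
`H¹(L, V)` are zero if `n ≤ 2 i + 1`. Here we consider all the other integers `i`, also the negative
ones.

Theorem: for all integers `i` with `2 i + 2 ≤ n` and all these fields `L` the semistable classes of
`H¹(L, V)` generate a subspace of dimension at most `2 ^ m f`, where `f = ∑_{i < k < n - i} binomial(n, k)`
is the number of the `α : {1, ..., n} → {0, 1}` which take the value `0` more than `i` times and the
value `1` more than `i` times.

If the `δ_j` are independent modulo squares (as in (2)) then `2 ^ m = [L : K]` is the number of the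
complex places of `L`, and `2 ^ m f` is `∑_{v ∣ 2} dim D_dR(V_v) / Fil⁰ - [L : K] dim V`, the Euler
characteristic of the Selmer complex of `V` over `L`. If `n` is odd, it is the dimension which
Beilinson predicts over `L`. So for `X = E_1 × ... × E_N`, all the curves with the same `d = D`, for all
odd `h` and all `j > (h + 1) / 2` the dimension of `H¹_st(L, H^h(X, ℚ_2(j)))` is at most the dimension
of the Deligne cohomology group `H^{h+1}_D(X_L, ℝ(j))`, which Beilinson predicts for the motivic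
cohomology group `H^{h+1}_M(X_L, ℚ(j)) = K_{2 j - h - 1}(X_L)^{(j)}` of an integral model, over all the
layers `L` of infinite towers; for `j ≤ (h + 1) / 2` it is zero by `TowersAllTwists`. For this see the
remarks on the condition `IsSemistable` there.

The case `L = K` is `AllWeightsDimension` (helper12), where the bound `f` is proved. Proof: by
corestriction with the characters of `Gal(L/K)` the group over `L` embeds into the sum of the `2 ^ m`
groups over `K` of the twists, the twists belong to the family, and each of them contributes at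
most `f` to the dimension.

Parts of the proof of the case `L = K` were written by helper12, helper57, helper58, helper59 and
helper87 (see `AllWeightsDimension`).
-/

set_option autoImplicit false

namespace Pool.Agent.Results.MP_76188c_nt.TowersAllWeights

open TowersAllTwists
open scoped Classical

/-- The action of the group `G` on `V_1 ⊗ ... ⊗ V_n ⊗ χ⁻ⁱ`, `i` an integer, where `ρ k` is the action
on the basis `e 0`, `e 1` of `V_k`. The coordinate `α` is the coefficient of
`e (α 1) ⊗ ... ⊗ e (α n)`. -/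
noncomputable def tensZ {G : Type} [Group G] {n : ℕ} (ρ : Fin n → G →* Matrix (Fin 2) (Fin 2) ℤ_[2])
    (χ : G →* ℤ_[2]ˣ) (i : ℤ) (σ : G) (v : (Fin n → Fin 2) → ℚ_[2]) : (Fin n → Fin 2) → ℚ_[2] :=
  fun α => ∑ β, ((((χ σ) ^ (-i) : ℤ_[2]ˣ) * ∏ k, ρ k σ (α k) (β k) : ℤ_[2]) : ℚ_[2]) * v β

/-- The conditions for the class of `c` in `H¹(L, V)`, `V = V_1 ⊗ ... ⊗ V_n (-i)`, where `L` is the
field fixed by `H`, a Galois extension of `K`: it is trivial on the inertia groups of the places of
`L` prime to `2`; at the places of `L` above the place `ι₁` of `K` its image in `H¹(L_v, V / F)` is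
trivial on the inertia group, where `F` is generated at `ι₁` by the tensors
`e (α 1) ⊗ ... ⊗ e (α n)` with more than `i` factors `e 0`, that is with a positive Hodge–Tate
weight; and at the places above `ι₂` the same with `e 1` instead of `e 0`. -/
structure IsSemistableZ {w : QBar} (H : Subgroup (Gal w)) (ι₁ ι₂ : QBar →ₐ[ℚ] PadicAlgCl 2) {n : ℕ}
    (i : ℤ) (A : Gal w → ((Fin n → Fin 2) → ℚ_[2]) → (Fin n → Fin 2) → ℚ_[2])
    (c : Gal w → (Fin n → Fin 2) → ℚ_[2]) : Prop where
  odd : ∀ (p : ℕ) [Fact p.Prime] (ι : QBar →ₐ[ℚ] PadicAlgCl p), p ≠ 2 →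
    TrivialOn A (Inr ι ∩ H) Set.univ c
  two₁ : ∀ g, TrivialOn A (Inr ι₁ ∩ H) {α | (count α 0 : ℤ) ≤ i} (conj A g c)
  two₂ : ∀ g, TrivialOn A (Inr ι₂ ∩ H) {α | (count α 1 : ℤ) ≤ i} (conj A g c)

/-- The classes of the cocycles `c` of `H` with values in `ℚ_2 ^ B`, where `σ` acts by `A σ`, which
satisfy `P c` generate a subspace of dimension at most `f` of the first cohomology group of `H`: every
`f + 1` classes satisfy a nontrivial linear relation. -/
def DimLE {G B : Type} [Group G] [TopologicalSpace G] (H : Subgroup G)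
    (A : G → (B → ℚ_[2]) → B → ℚ_[2]) (P : (G → B → ℚ_[2]) → Prop) (f : ℕ) : Prop :=
  ∀ c : Fin (f + 1) → G → B → ℚ_[2], (∀ j, IsCocycle H A (c j) ∧ P (c j)) →
    ∃ l : Fin (f + 1) → ℚ_[2], l ≠ 0 ∧ TrivialOn A H Set.univ (∑ j, l j • c j)

/-- The curves `E_{t_k,d_k}` over `K` are elliptic, and for all the places `ι₁`, `ι₂` of `K` above
`ω` and `1 - ω` there are frames of their Tate modules such that for all `L = K(√δ_1, ..., √δ_m)` for
which all the `D ∏_{j ∈ T} δ_j` are good twists, and for all integers `i` with `2 i + 2 ≤ n`, the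
semistable classes of `H¹(L, V_2(E_1) ⊗ ... ⊗ V_2(E_n) (-i))` generate a subspace of dimension at
most `2 ^ m` times the number of the `α` with more than `i` values `0` and more than `i` values
`1`. -/
def AllBounded {n : ℕ} (t : Fin n → Triple) (d : Fin n → OK) (D : OK) : Prop :=
  ∀ w : QBar, w ^ 2 = w - 2 →
    (∀ k, (E w (t k) (d k)).IsElliptic) ∧ ∀ ι₁ ι₂ : QBar →ₐ[ℚ] PadicAlgCl 2, ‖ι₁ w‖ < 1 →
      ‖ι₂ (1 - w)‖ < 1 → ∃ (e : ∀ k, Fin 2 → ℕ → Pts w (t k) (d k))
        (ρ : Fin n → Gal w →* Matrix (Fin 2) (Fin 2) ℤ_[2]),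
        (∀ k, Frame ι₁ ι₂ (t k) (d k) (e k) (ρ k)) ∧
        ∀ (m : ℕ) (δ : Fin m → OK) (r : Fin m → QBar), (∀ j, r j ^ 2 = emb w (δ j)) →
          (∀ T : Finset (Fin m), GoodTwist t (D * ∏ j ∈ T, δ j)) → ∀ i : ℤ, 2 * i + 2 ≤ n →
          DimLE (GalL w r) (tensZ ρ (cyc w) i)
            (IsSemistableZ (GalL w r) ι₁ ι₂ i (tensZ ρ (cyc w) i))
            (2 ^ m * (Finset.univ.filter fun α : Fin n → Fin 2 =>
              i < (count α 0 : ℤ) ∧ i < (count α 1 : ℤ)).card)

/-- **The dimension of the space of the semistable classes of the products of elliptic curves in all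
weights, over infinite multiquadratic towers.** -/
theorem result :
    (∀ (n : ℕ) (t : Fin n → Triple) (d : Fin n → OK) (D s : OK), 0 < n →
      (∀ k, (t k).Adm ∧ Fine (t k) ∧ IsCoprime (d k) 2) → ∏ k, d k = D * s ^ 2 →
      AllBounded t d D) ∧
    ∀ F : Finset Triple, (∀ t ∈ F, t.Adm ∧ Fine t) →
      {D : OK | ∃ l : ℕ → ℕ, Function.Injective l ∧
        (∀ j, (l j).Prime ∧ l j % 8 = 1 ∧ Prime (l j : OK)) ∧ ∀ T : Finset ℕ,
          (∃ (N : ℕ) (q : Fin N → OK), Good q (D * ∏ j ∈ T, (l j : OK))) ∧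
          ∀ t ∈ F, NonSquare t (D * ∏ j ∈ T, (l j : OK))}.Infinite := by
  refine ⟨?_, TowersAllTwists.result.2⟩
  intro n t d D s hn0 ht hprod w hw
  refine ⟨fun k => elliptic (ht k).1 (ht k).2.2 hw, ?_⟩
  intro ι₁ ι₂ h₁ h₂
  have hs : s ≠ 0 := by
    rintro rfl
    rw [zero_pow two_ne_zero, mul_zero] at hprod
    obtain ⟨k, _, hk⟩ := Finset.prod_eq_zero_iff.1 hprod
    exact d_ne (ht k).2.2 hk
  have hrk : ∀ k, ∃ r : QBar, r ^ 2 = Pool.Agent.R384.em hw (d k) := fun k =>
    IsAlgClosed.exists_pow_nat_eq _ (by norm_num)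
  choose rk hrk using hrk
  obtain ⟨I, hI⟩ : ∃ I : QBar, I ^ 2 = -1 := IsAlgClosed.exists_pow_nat_eq _ (by norm_num)
  have hfr := fun k => exists_frame hw (ht k).1 (ht k).2.2 (hrk k) hI h₁ h₂
  choose e ρ hfr hρ using hfr
  refine ⟨e, ρ, hfr, ?_⟩
  intro m δ r hr hgood i _ c hc
  -- the sign of the twist
  obtain ⟨χ, k, tc, hχ⟩ : ∃ (χ : Gal w →* ℤ_[2]ˣ) (k : ℕ), Pool.Agent.K3h12.DM.TC I χ ∧
      ∀ σ, (cyc w σ) ^ (-i) = (χ σ)⁻¹ ^ k := by
    have htc : Pool.Agent.K3h12.DM.TC I (cyc w) := Pool.Agent.K3h12.DM.tc_cyc hI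
    rcases Int.eq_nat_or_neg i with ⟨k, rfl | rfl⟩
    · exact ⟨cyc w, k, htc, fun σ => by rw [zpow_neg, zpow_natCast, inv_pow]⟩
    · refine ⟨(cyc w)⁻¹, k, Pool.Agent.K3h12.DM.tc_inv htc, fun σ => ?_⟩
      rw [neg_neg, zpow_natCast, MonoidHom.inv_apply, inv_inv]
  have hA : ∀ (σ : Gal w) (v : (Fin n → Fin 2) → ℚ_[2]),
      tensZ ρ (cyc w) i σ v = Pool.Agent.R384.tR ρ χ k σ v := by
    intro σ v
    funext α
    rw [Pool.Agent.R384.tR_apply]
    unfold tensZ
    rw [hχ σ]
    rfl
  have hg : ∀ T : Finset (Fin m), ∃ (N : ℕ) (q : Fin N → OK) (D' e : OK),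
      Pool.Agent.K3h45.ST.GTw (fun k => (t k).a) (fun k => (t k).b) (fun k => (t k).c)
        (D * ∏ j ∈ T, δ j) D' e q := by
    intro T
    obtain ⟨N, q, D', e, h1, h2, h3, h4⟩ := hgood T
    exact ⟨N, q, D', e, fun j => ⟨h1.prime j, h1.one j⟩, h1.inj, h1.five, h1.indec, h1.prod, h2,
      h3, fun k π hπ h5 h6 => h4 k π ⟨hπ, h5, h6⟩⟩
  obtain ⟨l, hl, y, hy⟩ := Pool.Agent.K3h45.ST.tower_dim hw (i := k)
    Pool.Agent.K3h87.DM.t_LATT
    (Pool.Agent.K3h58.DM.t_CORE2 Pool.Agent.K3h59.DM.t_NORMG Pool.Agent.K3h57.DM.t_LOC2)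
    hI h₁ h₂ hn0 hρ hrk hs hprod (fun k => (ht k).1.ne)
    (fun k π hπ h2 hd => (ht k).2.1 π ⟨hπ, h2, hd⟩) (s := r) (δ := δ)
    (fun j => by rw [hr j, emb_eq' hw]) hg (H := GalL w r) (fun σ => Iff.rfl) tc i
    (Finset.univ.filter fun α : Fin n → Fin 2 => i < (count α 0 : ℤ) ∧ i < (count α 1 : ℤ))
    (fun x => by
      rw [Finset.mem_filter]
      exact and_iff_right (Finset.mem_univ x)) c
    (fun j => ⟨(hc j).1.cont, fun σ h1 τ h2 => by rw [(hc j).1.mul σ h1 τ h2, hA],
      fun p _ ι hp => by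
        obtain ⟨y, hy⟩ := (hc j).2.odd p ι hp
        refine ⟨y, fun σ hσ hσH => ?_⟩
        funext α
        rw [hy σ ⟨hσ, hσH⟩ α (Set.mem_univ _), hA]
        rfl,
      fun g => by
        obtain ⟨y, hy⟩ := (hc j).2.two₁ g
        refine ⟨y, fun σ hσ hσH α hα => ?_⟩
        have h1 := hy σ ⟨hσ, hσH⟩ α hα
        unfold conj at h1
        rw [hA, hA] at h1
        exact h1,
      fun g => by
        obtain ⟨y, hy⟩ := (hc j).2.two₂ g
        refine ⟨y, fun σ hσ hσH α hα => ?_⟩
        have h1 := hy σ ⟨hσ, hσH⟩ α hα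
        unfold conj at h1
        rw [hA, hA] at h1
        exact h1⟩)
  refine ⟨l, hl, y, fun σ hσ α _ => ?_⟩
  rw [hA]
  have h1 := congrFun (hy σ hσ) α
  rw [Finset.sum_apply] at h1 ⊢
  rw [Finset.sum_apply]
  exact h1

end Pool.Agent.Results.MP_76188c_nt.TowersAllWeights
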